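import Mathlib
import Pool.Agent.Helper292.ForceCH
import Pool.Agent.H341Q.TUCount
import Pool.Agent.H341Q.TUTower
import Pool.Agent.H341Q.TUFub

/-!
# MP_8fdcc7_lc: a non-p-point `U` with `(U, ⊇*) <_T (U, ⊇)` is consistent, with no hypothesis

The starting result `FubiniProducts` obtains such an ultrafilter from the continuum hypothesis (or
from other hypotheses). Here no hypothesis is assumed: some notion of forcing forces the continuum
hypothesis and preserves `ω₁` (first part, in the forcing language of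
`Pool.Agent.Helper292.ForceCH`), and the continuum hypothesis gives such an ultrafilter (second
part).
-/

open Set Pool.Agent.H341Q.TU

namespace Pool.Agent.Results.MP_8fdcc7_lc.ForcedExample

/-- `U` is a nonprincipal ultrafilter on `ℕ` that is not a p-point and satisfies
`(U, ⊇*) <_T (U, ⊇)`. -/
def Example (U : Ultrafilter ℕ) : Prop :=
  NonPrin U ∧ ¬ IsPPt U ∧ TukLE (AlmOrd U) (InclOrd U) ∧ ¬ TukLE (InclOrd U) (AlmOrd U)

theorem example_fub {V W : Ultrafilter ℕ} (hV : NonPrin V) (hW : NonPrin W) (hWp : IsPPt W)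
    (h : ¬ TukLE (InclOrd W) (InclOrd V)) : Example (fub V W) :=
  ⟨fub_nonPrin hW, fub_not_isPPt hV hW, almOrd_le_inclOrd _, fun h' => h (tukLE_of_fub hWp h')⟩

theorem exists_of_pEqC (hp : PEqC) : ∃ U, Example U := by
  obtain ⟨V, hV, hVp, _⟩ := exists_ppoint hp (fun _ => ∅)
  let e : Set ℕ ≃ Set (ℕ × Finset ℕ × ℕ) :=
    Equiv.Set.congr (Denumerable.eqv (ℕ × Finset ℕ × ℕ)).symm
  obtain ⟨W, hW, hWp, hWc⟩ := exists_ppoint hp (fun D => Coded V (e D))
  refine ⟨_, example_fub hV hW hWp ?_⟩
  intro h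
  obtain ⟨R, hR⟩ := coded_of_tukLE hVp h
  apply hWc (e.symm R)
  intro B
  rw [Equiv.apply_symm_apply]
  exact hR B

/-- No hypothesis is assumed. (1) There is a notion of forcing `P` all of whose conditions force
that `ω₁` is preserved and that the continuum hypothesis holds. (2) The continuum hypothesis
implies that there is a nonprincipal ultrafilter `U` on `ℕ` which is not a p-point and satisfies
`(U, ⊇*) <_T (U, ⊇)`. -/
theorem result :
    (∃ (P : Type) (_ : Preorder P), Nonempty P ∧ ∀ p : P,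
      p ∈ Pool.Agent.Helper292.ForceCH.OmegaOnePreserved P ∧
      p ∈ Pool.Agent.Helper292.ForceCH.CHHolds P) ∧
    (Cardinal.continuum.{0} = Cardinal.aleph 1 → ∃ U : Ultrafilter ℕ, Example U) := by
  refine ⟨?_, fun h => exists_of_pEqC (pEqC_of_ch h)⟩
  obtain ⟨P, hP, hne, h⟩ := Pool.Agent.Helper292.ForceCH.exists_forcing
  exact ⟨P, hP, hne, fun p => ⟨(h p).1, (h p).2.2⟩⟩

end Pool.Agent.Results.MP_8fdcc7_lc.ForcedExample
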